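import Pool.Agent.V5helper51.PL.Stm
import Pool.Agent.N748.MJ.POSV
import Pool.Agent.N748.GC.COS
import Pool.Agent.N748.GC.EQ

set_option autoImplicit false

/-!
# Project PL, part KAV: the correlations are `1` on average
-/

namespace Pool.Agent.V5helper76.PL.KAV

open Finset Filter MeasureTheory Topology Complex
open Pool.Agent.N748.MG Pool.Agent.N748.MG.CON Pool.Agent.N748.MJ Pool.Agent.N748.MJ.POSV
open Pool.Agent.V5helper51.PL
open Pool.Agent.N748.GC (Sm HP pt)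

/-! ### the functions on the circle -/

/-- the trigonometric polynomials -/
noncomputable def TT (V : ℝ) (k : ℕ) (y : UnitAddCircle) : ℂ :=
  ∑ a ∈ antidiagonal k, ((lR V a.1 * lR V a.2 : ℝ) : ℂ) * fourier (a.2 : ℤ) y

/-- the local factor at a phase -/
noncomputable def Ep (V : ℝ) (p : ℕ) (y : UnitAddCircle) : ℝ := ∑' k : ℕ, ‖TT V k y‖ ^ 2 * (1 / (p:ℝ)) ^ k

/-- its mean value is the square of this -/
noncomputable def Ec (V : ℝ) (p : ℕ) : ℝ := ∑' k : ℕ, lR V k ^ 2 * (1 / (p:ℝ)) ^ k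

lemma TT_cont (V : ℝ) (k : ℕ) : Continuous (TT V k) := by
  unfold TT
  exact continuous_finsetSum _ fun a _ => continuous_const.mul (fourier (a.2:ℤ)).continuous

lemma lR_bd {V : ℝ} {n : ℕ} (hn : |V| ≤ n) (k : ℕ) : |lR V k| ≤ ((k:ℝ) + 1) ^ n := by
  have h := lC_bd n (s := (V:ℂ)) (by rw [Complex.norm_real]; exact hn) k
  rwa [lC_ofReal, Complex.norm_real] at h

lemma norm_four (n : ℤ) (y : UnitAddCircle) : ‖(fourier n y : ℂ)‖ = 1 := by
  rw [fourier_apply]; exact Circle.norm_coe _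

lemma TT_bd {V : ℝ} {n : ℕ} (hn : |V| ≤ n) (k : ℕ) (y : UnitAddCircle) :
    ‖TT V k y‖ ≤ ((k:ℝ) + 1) ^ (2 * n + 1) := by
  unfold TT
  refine (norm_sum_le _ _).trans ?_
  have h1 : ∀ a ∈ antidiagonal k, ‖((lR V a.1 * lR V a.2 : ℝ) : ℂ) * fourier (a.2 : ℤ) y‖ ≤
      ((k:ℝ) + 1) ^ (2 * n) := by
    intro a ha
    rw [HasAntidiagonal.mem_antidiagonal] at ha
    rw [norm_mul, norm_four, mul_one, Complex.norm_real, Real.norm_eq_abs, abs_mul, two_mul, pow_add]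
    have h1 : ((a.1:ℝ) + 1) ≤ (k:ℝ) + 1 := by
      have : a.1 ≤ k := by omega
      have : (a.1:ℝ) ≤ k := by exact_mod_cast this
      linarith
    have h2 : ((a.2:ℝ) + 1) ≤ (k:ℝ) + 1 := by
      have : a.2 ≤ k := by omega
      have : (a.2:ℝ) ≤ k := by exact_mod_cast this
      linarith
    refine mul_le_mul ((lR_bd hn _).trans (pow_le_pow_left₀ (by positivity) h1 n))
      ((lR_bd hn _).trans (pow_le_pow_left₀ (by positivity) h2 n)) (abs_nonneg _) (by positivity)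
  refine (sum_le_card_nsmul _ _ _ h1).trans (le_of_eq ?_)
  rw [Finset.Nat.card_antidiagonal, nsmul_eq_mul]
  push_cast
  ring

lemma px1 {p : ℕ} (hp : 2 ≤ p) : 0 ≤ 1 / (p:ℝ) ∧ 1 / (p:ℝ) ≤ 1 / 2 := by
  have : (2 : ℝ) ≤ p := by exact_mod_cast hp
  exact ⟨by positivity, one_div_le_one_div_of_le (by norm_num) this⟩

lemma Ep_term {V : ℝ} {n : ℕ} (hn : |V| ≤ n) {p : ℕ} (hp : 2 ≤ p) (c k : ℕ) (y : UnitAddCircle) :
    ‖‖TT V (k + c) y‖ ^ 2 * (1 / (p:ℝ)) ^ k‖ ≤ bb (2 * n + 1) (c + 1) k := by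
  have h1 := px1 hp
  rw [norm_mul, norm_pow, norm_pow, norm_norm, Real.norm_of_nonneg h1.1]
  unfold bb
  refine mul_le_mul ?_ (pow_le_pow_left₀ h1.1 h1.2 k) (by positivity) (by positivity)
  calc ‖TT V (k + c) y‖ ^ 2 ≤ ((((k + c : ℕ):ℝ) + 1) ^ (2 * n + 1)) ^ 2 :=
        pow_le_pow_left₀ (norm_nonneg _) (TT_bd hn _ y) 2
    _ = ((k:ℝ) + ((c + 1 : ℕ) : ℝ)) ^ (2 * (2 * n + 1)) := by
        rw [← pow_mul, mul_comm (2 * n + 1) 2]
        push_cast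
        ring

lemma Ep_sum {V : ℝ} {n : ℕ} (hn : |V| ≤ n) {p : ℕ} (hp : 2 ≤ p) (y : UnitAddCircle) :
    Summable fun k : ℕ => ‖TT V k y‖ ^ 2 * (1 / (p:ℝ)) ^ k :=
  Summable.of_norm_bounded (bb_sum (2 * n + 1) 1) fun k => Ep_term hn hp 0 k y

lemma TT_zero (V : ℝ) (y : UnitAddCircle) : TT V 0 y = 1 := by
  unfold TT
  simp [lR]

lemma Ep_cont (V : ℝ) {p : ℕ} (hp : 2 ≤ p) : Continuous (Ep V p) := by
  obtain ⟨n, hn⟩ := exists_nat_ge |V|
  unfold Ep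
  exact continuous_tsum (u := bb (2 * n + 1) 1)
    (fun k => ((TT_cont V k).norm.pow 2).mul continuous_const) (bb_sum _ _) fun k y => Ep_term hn hp 0 k y

lemma Ep_nn (V : ℝ) (p : ℕ) (y : UnitAddCircle) : 0 ≤ Ep V p y :=
  tsum_nonneg fun k => by positivity

lemma Ep_le {V : ℝ} {n : ℕ} (hn : |V| ≤ n) {p : ℕ} (hp : 2 ≤ p) (y : UnitAddCircle) :
    Ep V p y ≤ Real.exp ((∑' k, bb (2 * n + 1) 2 k) * (1 / (p:ℝ))) := by
  have h1 := px1 hp
  unfold Ep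
  rw [(Ep_sum hn hp y).tsum_eq_zero_add, TT_zero]
  have h2 : ∑' k : ℕ, ‖TT V (k + 1) y‖ ^ 2 * (1 / (p:ℝ)) ^ (k + 1) =
      (∑' k : ℕ, ‖TT V (k + 1) y‖ ^ 2 * (1 / (p:ℝ)) ^ k) * (1 / (p:ℝ)) := by
    rw [← tsum_mul_right]
    exact tsum_congr fun k => by ring
  have h3 : ∑' k : ℕ, ‖TT V (k + 1) y‖ ^ 2 * (1 / (p:ℝ)) ^ k ≤ ∑' k, bb (2 * n + 1) 2 k := by
    have h4 := tsum_of_norm_bounded (bb_sum (2 * n + 1) 2).hasSum fun k => Ep_term hn hp 1 k y
    exact (le_abs_self _).trans h4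
  rw [h2, norm_one, one_pow, pow_zero, mul_one]
  have h5 := Real.add_one_le_exp ((∑' k, bb (2 * n + 1) 2 k) * (1 / (p:ℝ)))
  have h6 := mul_le_mul_of_nonneg_right h3 h1.1
  linarith

lemma Ec_sum (V : ℝ) {p : ℕ} (hp : 2 ≤ p) : Summable fun k : ℕ => lR V k ^ 2 * (1 / (p:ℝ)) ^ k := by
  obtain ⟨n, hn⟩ := exists_nat_ge |V|
  have h1 := px1 hp
  refine Summable.of_norm_bounded (bb_sum n 1) fun k => ?_
  rw [norm_mul, norm_pow, norm_pow, Real.norm_of_nonneg h1.1, Real.norm_eq_abs]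
  unfold bb
  refine mul_le_mul ?_ (pow_le_pow_left₀ h1.1 h1.2 k) (by positivity) (by positivity)
  calc |lR V k| ^ 2 ≤ (((k:ℝ) + 1) ^ n) ^ 2 := pow_le_pow_left₀ (abs_nonneg _) (lR_bd hn k) 2
    _ = ((k:ℝ) + ((1 : ℕ) : ℝ)) ^ (2 * n) := by
        rw [← pow_mul, mul_comm n 2]
        push_cast
        ring

lemma Ec_ge (V : ℝ) {p : ℕ} (hp : 2 ≤ p) : 1 ≤ Ec V p := by
  have h1 := (Ec_sum V hp).le_tsum 0 fun m _ => by positivity
  have h2 : lR V 0 ^ 2 * (1 / (p : ℝ)) ^ 0 = 1 := by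
    unfold lR
    simp
  rw [h2] at h1
  exact h1

lemma TT_int (V : ℝ) (k : ℕ) : ∫ y, ‖TT V k y‖ ^ 2 ∂(AddCircle.haarAddCircle (T := (1:ℝ))) =
    ∑ a ∈ antidiagonal k, lR V a.1 ^ 2 * lR V a.2 ^ 2 := by
  have h1 : ((∫ y, ‖TT V k y‖ ^ 2 ∂(AddCircle.haarAddCircle (T := (1:ℝ))) : ℝ) : ℂ) =
      ∑ a ∈ antidiagonal k, ∑ b ∈ antidiagonal k,
        ((lR V a.1 * lR V a.2 * (lR V b.1 * lR V b.2) : ℝ) : ℂ) *
          ∫ y : UnitAddCircle, (fourier ((a.2:ℤ) + (-(b.2:ℤ))) y : ℂ) ∂(AddCircle.haarAddCircle (T := (1:ℝ))) := by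
    rw [← integral_complex_ofReal]
    have h2 : ∀ y : UnitAddCircle, ((‖TT V k y‖ ^ 2 : ℝ) : ℂ) = ∑ a ∈ antidiagonal k, ∑ b ∈ antidiagonal k,
        ((lR V a.1 * lR V a.2 * (lR V b.1 * lR V b.2) : ℝ) : ℂ) * (fourier ((a.2:ℤ) + (-(b.2:ℤ))) y : ℂ) := by
      intro y
      push_cast
      rw [← Complex.mul_conj']
      unfold TT
      rw [map_sum, sum_mul_sum]
      refine sum_congr rfl fun a _ => sum_congr rfl fun b _ => ?_
      rw [map_mul, Complex.conj_ofReal, fourier_add, fourier_neg]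
      push_cast
      ring
    have hint : ∀ (c : ℂ) (n : ℤ), Integrable (fun y : UnitAddCircle => c * (fourier n y : ℂ))
        (AddCircle.haarAddCircle (T := (1:ℝ))) := fun c n =>
      (continuous_const.mul (fourier n).continuous).integrable_of_hasCompactSupport
        (HasCompactSupport.of_compactSpace _)
    simp only [h2]
    rw [integral_finsetSum _ fun a _ => integrable_finsetSum _ fun b _ => hint _ _]
    refine sum_congr rfl fun a _ => ?_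
    rw [integral_finsetSum _ fun b _ => hint _ _]
    refine sum_congr rfl fun b _ => ?_
    rw [integral_const_mul]
  have h3 : ((∫ y, ‖TT V k y‖ ^ 2 ∂(AddCircle.haarAddCircle (T := (1:ℝ))) : ℝ) : ℂ) =
      ((∑ a ∈ antidiagonal k, lR V a.1 ^ 2 * lR V a.2 ^ 2 : ℝ) : ℂ) := by
    rw [h1]
    rw [Complex.ofReal_sum]
    refine sum_congr rfl fun a ha => ?_
    rw [Finset.sum_eq_single a]
    · rw [Pool.Agent.N748.GC.EQ.circ, if_pos (by ring)]
      push_cast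
      ring
    · intro b hb hba
      rw [Pool.Agent.N748.GC.EQ.circ, if_neg, mul_zero]
      intro hc
      apply hba
      rw [HasAntidiagonal.mem_antidiagonal] at ha hb
      ext
      · omega
      · omega
    · intro hc
      exact absurd ha hc
  exact_mod_cast h3

lemma Ep_int (V : ℝ) {p : ℕ} (hp : 2 ≤ p) :
    ∫ y, Ep V p y ∂(AddCircle.haarAddCircle (T := (1:ℝ))) = Ec V p ^ 2 := by
  obtain ⟨n, hn⟩ := exists_nat_ge |V|
  have h1 := px1 hp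
  have hint : ∀ k : ℕ, Integrable (fun y : UnitAddCircle => ‖TT V k y‖ ^ 2 * (1 / (p:ℝ)) ^ k)
      (AddCircle.haarAddCircle (T := (1:ℝ))) := fun k =>
    (((TT_cont V k).norm.pow 2).mul continuous_const).integrable_of_hasCompactSupport
      (HasCompactSupport.of_compactSpace _)
  have hs : Summable fun k : ℕ => ∫ y, ‖‖TT V k y‖ ^ 2 * (1 / (p:ℝ)) ^ k‖ ∂(AddCircle.haarAddCircle (T := (1:ℝ))) := by
    refine Summable.of_norm_bounded (bb_sum (2 * n + 1) 1) fun k => ?_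
    refine (norm_integral_le_of_norm_le_const (C := bb (2 * n + 1) 1 k) (Eventually.of_forall fun y => ?_)).trans ?_
    · rw [norm_norm]
      exact Ep_term hn hp 0 k y
    · simp
  unfold Ep
  rw [← integral_tsum_of_summable_integral_norm hint hs]
  unfold Ec
  rw [sq, tsum_mul_tsum_eq_tsum_sum_antidiagonal_of_summable_norm (Ec_sum V hp).norm (Ec_sum V hp).norm]
  refine tsum_congr fun k => ?_
  rw [integral_mul_const, TT_int, sum_mul]
  refine sum_congr rfl fun a ha => ?_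
  rw [HasAntidiagonal.mem_antidiagonal] at ha
  rw [← ha, pow_add]
  ring

/-! ### the local factors -/

lemma sum_pi2 {M : Type*} [AddCommMonoid M] (k : ℕ) (f : (Fin 2 → ℕ) → M) :
    ∑ μ ∈ Finset.piAntidiag (Finset.univ : Finset (Fin 2)) k, f μ = ∑ a ∈ antidiagonal k, f ![a.1, a.2] := by
  refine Finset.sum_nbij' (fun μ => (μ 0, μ 1)) (fun a => ![a.1, a.2]) ?_ ?_ ?_ ?_ ?_
  · intro μ hμ
    rw [Finset.mem_piAntidiag] at hμ
    rw [HasAntidiagonal.mem_antidiagonal]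
    rw [Fin.sum_univ_two] at hμ
    exact hμ.1
  · intro a ha
    rw [HasAntidiagonal.mem_antidiagonal] at ha
    rw [Finset.mem_piAntidiag]
    refine ⟨?_, fun i _ => Finset.mem_univ i⟩
    rw [Fin.sum_univ_two]
    exact ha
  · intro μ _
    funext i
    fin_cases i <;> rfl
  · intro a _
    rfl
  · intro μ _
    congr 1
    funext i
    fin_cases i <;> rfl

/-- the phase of `p^(-ih)` -/
noncomputable def ph (p : ℕ) (h : ℝ) : UnitAddCircle := ((-(h * Real.log p / (2 * Real.pi)) : ℝ) : UnitAddCircle)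

lemma four_ph {p : ℕ} (hp : p ≠ 0) (h : ℝ) (n : ℕ) :
    (fourier (n:ℤ) (ph p h) : ℂ) = (p:ℂ) ^ (-(((n * h : ℝ) : ℂ) * I)) := by
  have hp0 : (p:ℂ) ≠ 0 := by exact_mod_cast hp
  unfold ph
  rw [fourier_coe_apply, Complex.cpow_def_of_ne_zero hp0, ← Complex.natCast_log]
  congr 1
  push_cast
  have hpi : (Real.pi : ℂ) ≠ 0 := by exact_mod_cast Real.pi_ne_zero
  field_simp

lemma lV_two (V h : ℝ) {p : ℕ} (hp : p ≠ 0) (k : ℕ) :
    lV ![(V:ℂ), (V:ℂ)] ![0, h] p k = TT V k (ph p h) := by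
  unfold lV TT
  rw [sum_pi2]
  refine sum_congr rfl fun a _ => ?_
  rw [Fin.prod_univ_two]
  simp only [Matrix.cons_val_zero, Matrix.cons_val_one, mul_zero, Complex.ofReal_zero, zero_mul, neg_zero,
    Complex.cpow_zero, mul_one]
  rw [four_ph hp, lC_ofReal, lC_ofReal]
  push_cast
  ring

lemma cj_two (V : ℝ) : cj ![(V:ℂ), (V:ℂ)] = ![(V:ℂ), (V:ℂ)] := by
  unfold cj
  funext i
  fin_cases i <;> simp

lemma SV_two (V h : ℝ) {p : ℕ} (hp : p ≠ 0) :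
    SV ![(V:ℂ), (V:ℂ)] ![(V:ℂ), (V:ℂ)] ![0, h] p = ((Ep V p (ph p h) : ℝ) : ℂ) := by
  unfold SV Ep
  rw [Complex.ofReal_tsum]
  refine tsum_congr fun k => ?_
  rw [cj_two, lV_two V h hp, Complex.mul_conj', xp]
  push_cast
  ring

lemma bs_zero (p : ℕ) : bs p 0 = ((1 - 1 / (p:ℝ) : ℝ) : ℂ) := by
  unfold bs pu
  simp [Complex.cpow_neg_one]

lemma bs_pair {p : ℕ} (hp : p.Prime) (h q : ℝ) : bs p (-h) ^ ((q:ℝ):ℂ) * bs p h ^ ((q:ℝ):ℂ) =
    ((‖bs p h‖ ^ (2 * q) : ℝ) : ℂ) := by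
  have h0 := bs_ne hp h
  have h1 := bs_ne hp (-h)
  have h2 : 0 < ‖bs p h‖ := norm_pos_iff.2 h0
  rw [Complex.cpow_def_of_ne_zero h0, Complex.cpow_def_of_ne_zero h1, ← Complex.exp_add, Real.rpow_def_of_pos h2,
    Complex.ofReal_exp]
  congr 1
  have h3 := bs_log_conj hp h
  rw [← h3, ← add_mul, add_comm, Complex.add_conj, Complex.log_re]
  push_cast
  ring

lemma gV_two (V h : ℝ) {p : ℕ} (hp : p.Prime) :
    gV ![(V:ℂ), (V:ℂ)] ![(V:ℂ), (V:ℂ)] ![0, h] 0 p =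
      (((1 - 1 / (p:ℝ)) ^ (2 * V ^ 2) * ‖bs p h‖ ^ (2 * V ^ 2) * Ep V p (ph p h) : ℝ) : ℂ) := by
  have h12 : 0 < 1 - 1 / (p:ℝ) := by
    have := (px1 hp.two_le).2
    linarith
  rw [POSV.gV_eq, SV_two V h hp.ne_zero, Fin.prod_univ_two, Fin.prod_univ_two, Fin.prod_univ_two]
  simp only [Matrix.cons_val_zero, Matrix.cons_val_one, sub_self, zero_sub, sub_zero]
  have e1 : (V:ℂ) * (V:ℂ) = ((V ^ 2 : ℝ) : ℂ) := by push_cast; ring
  rw [e1]
  have e2 : bs p 0 ^ ((V ^ 2 : ℝ) : ℂ) * bs p (-h) ^ ((V ^ 2 : ℝ) : ℂ) *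
      (bs p h ^ ((V ^ 2 : ℝ) : ℂ) * bs p 0 ^ ((V ^ 2 : ℝ) : ℂ)) =
      (bs p 0 ^ ((V ^ 2 : ℝ) : ℂ)) ^ 2 * (bs p (-h) ^ ((V ^ 2 : ℝ) : ℂ) * bs p h ^ ((V ^ 2 : ℝ) : ℂ)) := by ring
  rw [e2, bs_pair hp, bs_zero, ← Complex.ofReal_cpow h12.le]
  have e3 : (1 - 1 / (p:ℝ)) ^ (2 * V ^ 2) = ((1 - 1 / (p:ℝ)) ^ (V ^ 2)) ^ 2 := by
    rw [mul_comm, Real.rpow_mul h12.le]
    norm_num
  rw [e3]
  push_cast
  ring

/-- the factor of the constant -/
noncomputable def cf (V : ℝ) (p : ℕ) : ℝ := (1 - 1 / (p:ℝ)) ^ (V ^ 2) * Ec V p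

lemma Gp_cf (V : ℝ) {p : ℕ} (hp : p.Prime) : Gp V (1 / (p : ℂ)) = ((cf V p : ℝ) : ℂ) := by
  have h12 : 0 < 1 - 1 / (p:ℝ) := by
    have := (px1 hp.two_le).2
    linarith
  unfold Gp FF cf Ec
  rw [Complex.ofReal_mul, Complex.ofReal_cpow h12.le, Complex.ofReal_tsum]
  congr 1
  · push_cast
    rfl
  · congr 1
    funext m
    rw [lC_ofReal]
    push_cast
    rfl

lemma cf_pos (V : ℝ) {p : ℕ} (hp : p.Prime) : 0 < cf V p := by
  have h12 : 0 < 1 - 1 / (p:ℝ) := by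
    have := (px1 hp.two_le).2
    linarith
  unfold cf
  exact mul_pos (Real.rpow_pos_of_pos h12 _) (lt_of_lt_of_le one_pos (Ec_ge V hp.two_le))

/-! ### the products -/

lemma tendsto_prod {M : Type*} [CommMonoid M] [TopologicalSpace M] {f : ℕ → M} {a : M}
    (h : HasProd (fun p : Nat.Primes => f p) a) :
    Tendsto (fun N : ℕ => ∏ p ∈ Sm N, f p) atTop (𝓝 a) := by
  have h1 : Tendsto (fun N : ℕ => (Finset.range N).subtype Nat.Prime) atTop atTop := by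
    refine tendsto_atTop_finset_of_monotone (fun a b hab => ?_) fun p => ⟨(p:ℕ) + 1, ?_⟩
    · intro x hx
      rw [Finset.mem_subtype, mem_range] at hx ⊢
      omega
    · rw [Finset.mem_subtype, mem_range]
      omega
  have h2 := Tendsto.comp h h1
  refine h2.congr fun N => ?_
  show ∏ p ∈ (Finset.range N).subtype Nat.Prime, f p = _
  unfold Sm
  rw [← Finset.prod_subtype_eq_prod_filter]

lemma Sm_split {z N : ℕ} (h : z ≤ N) (f : ℕ → ℝ) :
    ∏ p ∈ Sm N, f p = (∏ p ∈ Sm z, f p) * ∏ p ∈ (Ico z N).filter Nat.Prime, f p := by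
  unfold Sm
  rw [← Finset.prod_union]
  · congr 1
    rw [← Finset.filter_union]
    congr 1
    ext p
    simp only [mem_union, mem_range, mem_Ico]
    omega
  · rw [Finset.disjoint_left]
    intro p hp hq
    rw [mem_filter, mem_range] at hp
    rw [mem_filter, mem_Ico] at hq
    omega

lemma sq_tail {z : ℕ} (hz : 2 ≤ z) (N : ℕ) :
    ∑ p ∈ (Ico z N).filter Nat.Prime, 1 / (p:ℝ) ^ 2 ≤ 2 / (z:ℝ) := by
  have h1 : ∑ p ∈ (Ico z N).filter Nat.Prime, 1 / (p:ℝ) ^ 2 ≤ ∑ p ∈ Ioo (z - 1) N, (1:ℝ) / (p:ℝ) ^ 2 := by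
    refine sum_le_sum_of_subset_of_nonneg ?_ fun p _ _ => by positivity
    intro p hp
    rw [mem_filter, mem_Ico] at hp
    rw [mem_Ioo]
    omega
  have h2 := sum_Ioo_inv_sq_le (α := ℝ) (z - 1) N
  have h3 : (((z - 1 : ℕ) : ℝ) + 1) = z := by
    have : (z - 1) + 1 = z := Nat.sub_add_cancel (by omega)
    exact_mod_cast this
  rw [h3] at h2
  refine h1.trans (le_trans (le_of_eq ?_) h2)
  exact sum_congr rfl fun p _ => by rw [one_div]

/-- the two-point factor, upper bound -/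
lemma upper {V C h : ℝ} (hC0 : 0 ≤ C)
    (hC : ∀ p : ℕ, p.Prime → ‖gV ![(V:ℂ), (V:ℂ)] ![(V:ℂ), (V:ℂ)] ![0, h] 0 p - 1‖ ≤ C / (p:ℝ) ^ 2)
    {z : ℕ} (hz : 2 ≤ z) : (a2 V V h).re ≤
      (∏ p ∈ Sm z, ‖gV ![(V:ℂ), (V:ℂ)] ![(V:ℂ), (V:ℂ)] ![0, h] 0 p‖) * Real.exp (2 * C / z) := by
  have hs : Summable fun p : Nat.Primes => gV ![(V:ℂ), (V:ℂ)] ![(V:ℂ), (V:ℂ)] ![0, h] 0 p - 1 :=
    Summable.of_norm_bounded (POSV.sum_px C) fun p => hC p p.2
  have hm := (Complex.multipliable_one_add_of_summable hs).hasProd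
  rw [← aV_eq] at hm
  have hm2 : HasProd (fun p : Nat.Primes => gV ![(V:ℂ), (V:ℂ)] ![(V:ℂ), (V:ℂ)] ![0, h] 0 p)
      (aV ![(V:ℂ), (V:ℂ)] ![(V:ℂ), (V:ℂ)] ![0, h]) := by
    have e : (fun i : Nat.Primes => 1 + (gV ![(V:ℂ), (V:ℂ)] ![(V:ℂ), (V:ℂ)] ![0, h] 0 i - 1)) =
        fun i : Nat.Primes => gV ![(V:ℂ), (V:ℂ)] ![(V:ℂ), (V:ℂ)] ![0, h] 0 i := by
      funext i
      ring
    rwa [e] at hm
  have h3 := (tendsto_prod (f := fun p : ℕ => gV ![(V:ℂ), (V:ℂ)] ![(V:ℂ), (V:ℂ)] ![0, h] 0 p) hm2).norm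
  refine (Complex.re_le_norm _).trans ?_
  unfold a2
  refine le_of_tendsto h3 ?_
  filter_upwards [eventually_ge_atTop z] with N hN
  rw [norm_prod, Sm_split hN]
  refine mul_le_mul_of_nonneg_left ?_ (prod_nonneg fun p _ => norm_nonneg _)
  calc ∏ p ∈ (Ico z N).filter Nat.Prime, ‖gV ![(V:ℂ), (V:ℂ)] ![(V:ℂ), (V:ℂ)] ![0, h] 0 p‖
      ≤ ∏ p ∈ (Ico z N).filter Nat.Prime, Real.exp (C * (1 / (p : ℝ) ^ 2)) := by
        refine prod_le_prod (fun _ _ => norm_nonneg _) fun p hp => ?_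
        have h1 := hC p (mem_filter.1 hp).2
        have h2 := Real.add_one_le_exp (C * (1 / (p : ℝ) ^ 2))
        have h3 : ‖gV ![(V:ℂ), (V:ℂ)] ![(V:ℂ), (V:ℂ)] ![0, h] 0 p‖ ≤
            ‖gV ![(V:ℂ), (V:ℂ)] ![(V:ℂ), (V:ℂ)] ![0, h] 0 p - 1‖ + 1 := by
          have := norm_add_le (gV ![(V:ℂ), (V:ℂ)] ![(V:ℂ), (V:ℂ)] ![0, h] 0 p - 1) 1
          rwa [sub_add_cancel, norm_one] at this
        rw [div_eq_mul_one_div] at h1
        linarith
    _ = Real.exp (C * ∑ p ∈ (Ico z N).filter Nat.Prime, 1 / (p : ℝ) ^ 2) := by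
        rw [mul_sum, Real.exp_sum]
    _ ≤ Real.exp (2 * C / z) := by
        apply Real.exp_le_exp.2
        have := mul_le_mul_of_nonneg_left (sq_tail hz N) hC0
        refine this.trans (le_of_eq ?_)
        ring

/-- the constant, lower bound -/
lemma lower {V C : ℝ} (hC0 : 0 ≤ C) (hC : ∀ p : ℕ, p.Prime → |cf V p - 1| ≤ C / (p:ℝ) ^ 2)
    {z : ℕ} (hz : 2 ≤ z) (hz2 : 2 * C ≤ z) :
    (∏ p ∈ Sm z, cf V p) * Real.exp (-(4 * C / z)) ≤ (aC V).re := by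
  have hs : Summable fun p : Nat.Primes => Gp V (1 / (p : ℂ)) - 1 := by
    refine Summable.of_norm_bounded (POSV.sum_px C) fun p => ?_
    have h1 := hC p p.2
    rw [Gp_cf V p.2, ← Complex.ofReal_one, ← Complex.ofReal_sub, Complex.norm_real]
    exact h1
  have hm := (Complex.multipliable_one_add_of_summable hs).hasProd
  rw [← aC_eq] at hm
  have hm2 : HasProd (fun p : Nat.Primes => ((cf V p : ℝ) : ℂ)) (aC V) := by
    have e : (fun i : Nat.Primes => 1 + (Gp V (1 / (i : ℂ)) - 1)) =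
        fun i : Nat.Primes => ((cf V i : ℝ) : ℂ) := by
      funext i
      rw [Gp_cf V i.2]
      ring
    rwa [e] at hm
  have h3 := (Complex.continuous_re.tendsto _).comp (tendsto_prod (f := fun p : ℕ => ((cf V p : ℝ) : ℂ)) hm2)
  refine ge_of_tendsto h3 ?_
  filter_upwards [eventually_ge_atTop z] with N hN
  simp only [Function.comp_apply]
  rw [← Complex.ofReal_prod, Complex.ofReal_re, Sm_split hN]
  refine mul_le_mul_of_nonneg_left ?_ (prod_nonneg fun p hp => (cf_pos V (mem_filter.1 hp).2).le)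
  calc Real.exp (-(4 * C / z)) ≤ Real.exp (∑ p ∈ (Ico z N).filter Nat.Prime, -(2 * C * (1 / (p : ℝ) ^ 2))) := by
        apply Real.exp_le_exp.2
        rw [sum_neg_distrib, ← mul_sum]
        have := mul_le_mul_of_nonneg_left (sq_tail hz N) (by positivity : 0 ≤ 2 * C)
        have e : 2 * C * (2 / (z:ℝ)) = 4 * C / z := by ring
        linarith
    _ = ∏ p ∈ (Ico z N).filter Nat.Prime, Real.exp (-(2 * C * (1 / (p : ℝ) ^ 2))) := Real.exp_sum _ _
    _ ≤ ∏ p ∈ (Ico z N).filter Nat.Prime, cf V p := by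
        refine prod_le_prod (fun _ _ => (Real.exp_pos _).le) fun p hp => ?_
        rw [mem_filter, mem_Ico] at hp
        have h1 := (abs_le.1 (hC p hp.2)).1
        have hzp : (z:ℝ) ≤ p := by exact_mod_cast hp.1.1
        have hz0 : (2:ℝ) ≤ z := by exact_mod_cast hz
        have hp0 : (0:ℝ) < p := by linarith
        have hx : C / (p:ℝ) ^ 2 ≤ 1 / 2 := by
          rw [div_le_iff₀ (by positivity)]
          nlinarith
        have hx0 : 0 ≤ C / (p:ℝ) ^ 2 := by positivity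
        set x := C / (p:ℝ) ^ 2 with hxd
        have e : 2 * C * (1 / (p : ℝ) ^ 2) = 2 * x := by rw [hxd]; ring
        rw [e]
        have h2 : Real.exp (-(2 * x)) ≤ 1 - x := by
          have h3 := Real.add_one_le_exp (2 * x)
          rw [Real.exp_neg, inv_le_comm₀ (Real.exp_pos _) (by linarith)]
          refine le_trans ?_ h3
          rw [inv_le_iff_one_le_mul₀ (by linarith)]
          nlinarith
        linarith

/-! ### the function on the torus -/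

/-- the density on the torus -/
noncomputable def Fz (V : ℝ) (z : ℕ) (x : UnitAddTorus (Sm z)) : ℝ := ∏ p : Sm z, (Ep V p (x p) / Ec V p ^ 2)

lemma Sm_pr {z p : ℕ} (h : p ∈ Sm z) : p.Prime := (mem_filter.1 h).2

lemma Fz_cont (V : ℝ) (z : ℕ) : Continuous (Fz V z) := by
  unfold Fz
  refine continuous_finsetProd _ fun p _ => ?_
  exact ((Ep_cont V (Sm_pr p.2).two_le).comp (continuous_apply p)).div_const _

lemma Fz_int (V : ℝ) (z : ℕ) : ∫ x, Fz V z x ∂(HP (Sm z)) = 1 := by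
  unfold Fz HP
  rw [integral_fintype_prod_eq_prod (𝕜 := ℝ) (fun p : Sm z => fun y : UnitAddCircle => Ep V p y / Ec V p ^ 2)]
  refine prod_eq_one fun p _ => ?_
  have h2 := (Sm_pr p.2).two_le
  have h3 := Ec_ge V h2
  rw [integral_div, Ep_int V h2, div_self (by positivity)]

lemma fac_nn (V : ℝ) (p : ℕ) (y : UnitAddCircle) : 0 ≤ Ep V p y / Ec V p ^ 2 :=
  div_nonneg (Ep_nn V p y) (by positivity)

lemma Fz_nn (V : ℝ) (z : ℕ) (x : UnitAddTorus (Sm z)) : 0 ≤ Fz V z x :=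
  prod_nonneg fun p _ => fac_nn V p _

lemma Fz_le {V : ℝ} {n : ℕ} (hn : |V| ≤ n) (z : ℕ) (x : UnitAddTorus (Sm z)) :
    Fz V z x ≤ Real.exp ((∑' k, bb (2 * n + 1) 2 k) * ∑ p ∈ Sm z, 1 / (p:ℝ)) := by
  unfold Fz
  rw [mul_sum, Real.exp_sum, ← Finset.prod_coe_sort (Sm z)
    (fun p : ℕ => Real.exp ((∑' k, bb (2 * n + 1) 2 k) * (1 / (p:ℝ))))]
  refine prod_le_prod (fun p _ => fac_nn V p _) fun p _ => ?_
  have h2 := (Sm_pr p.2).two_le
  have h3 := Ec_ge V h2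
  refine le_trans ?_ (Ep_le hn h2 (x p))
  exact div_le_self (Ep_nn V p _) (one_le_pow₀ h3)

lemma Fz_pt (V : ℝ) (z : ℕ) (h : ℝ) : Fz V z (pt (Sm z) h) = ∏ p ∈ Sm z, (Ep V p (ph p h) / Ec V p ^ 2) := by
  unfold Fz
  rw [← Finset.prod_coe_sort (Sm z) (fun p : ℕ => Ep V p (ph p h) / Ec V p ^ 2)]
  rfl

/-! ### the small primes -/

lemma ratio {p : ℕ} (hp : p.Prime) {δ : ℝ} (hδ : 0 ≤ δ) (h : ℝ) :
    ‖bs p h‖ ≤ Real.exp (4 * δ) * ‖1 - (p:ℂ) ^ (-(1 + 2 * δ + h * I : ℂ))‖ := by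
  have hp0 : (p:ℂ) ≠ 0 := by exact_mod_cast hp.ne_zero
  have hpr : (2:ℝ) ≤ p := by exact_mod_cast hp.two_le
  have hl : 0 ≤ Real.log p := Real.log_nonneg (by linarith)
  have hlp : Real.log p ≤ p := (Real.log_le_sub_one_of_pos (by linarith)).trans (by linarith)
  set x0 : ℝ := 1 / p with hx0
  set x1 : ℝ := x0 * Real.exp (-(2 * δ * Real.log p)) with hx1
  have hx0p : 0 < x0 := by positivity
  have hx0h : x0 ≤ 1 / 2 := (px1 hp.two_le).2
  set w : ℂ := (p:ℂ) ^ (-(h * I : ℂ)) with hw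
  have hwn : ‖w‖ = 1 := by
    rw [hw, Complex.norm_natCast_cpow_of_pos hp.pos]
    simp
  have e0 : pu p h = (x0 : ℂ) * w := by
    unfold pu
    rw [neg_add, Complex.cpow_add _ _ hp0, hx0]
    congr 1
    simp [Complex.cpow_neg_one]
  have e1 : (p:ℂ) ^ (-(1 + 2 * δ + h * I : ℂ)) = (x1 : ℂ) * w := by
    have a1 : (-(1 + 2 * δ + h * I : ℂ)) = -1 + (-(2 * δ : ℂ)) + (-(h * I : ℂ)) := by ring
    rw [a1, Complex.cpow_add _ _ hp0, Complex.cpow_add _ _ hp0, hx1, hx0]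
    congr 1
    push_cast
    rw [Complex.cpow_neg_one, Complex.cpow_def_of_ne_zero hp0, ← Complex.natCast_log, one_div]
    congr 2
    ring
  have h1 : 1 - 2 * δ * Real.log p ≤ Real.exp (-(2 * δ * Real.log p)) := by
    have := Real.add_one_le_exp (-(2 * δ * Real.log p))
    linarith
  have h2 : Real.exp (-(2 * δ * Real.log p)) ≤ 1 := by
    rw [← Real.exp_zero]
    refine Real.exp_le_exp.2 ?_
    have : 0 ≤ 2 * δ * Real.log p := by positivity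
    linarith
  have h3 : x0 - x1 ≤ 2 * δ := by
    have a1 : x0 - x1 = x0 * (1 - Real.exp (-(2 * δ * Real.log p))) := by rw [hx1]; ring
    have a2 : x0 * (1 - Real.exp (-(2 * δ * Real.log p))) ≤ x0 * (2 * δ * Real.log p) :=
      mul_le_mul_of_nonneg_left (by linarith) hx0p.le
    have a3 : x0 * (2 * δ * Real.log p) ≤ x0 * (2 * δ * p) :=
      mul_le_mul_of_nonneg_left (mul_le_mul_of_nonneg_left hlp (by linarith)) hx0p.le
    have a4 : x0 * (2 * δ * p) = 2 * δ := by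
      rw [hx0]
      field_simp
    linarith
  have h4 : 0 ≤ x0 - x1 := by
    have : x1 ≤ x0 * 1 := mul_le_mul_of_nonneg_left h2 hx0p.le
    linarith
  have h5 : 0 ≤ x1 := by positivity
  have h6 : 1 / 2 ≤ ‖1 - (x1 : ℂ) * w‖ := by
    have := norm_sub_norm_le (1 : ℂ) ((x1 : ℂ) * w)
    rw [norm_one, norm_mul, hwn, mul_one, Complex.norm_real, Real.norm_of_nonneg h5] at this
    linarith
  have h7 : ‖bs p h‖ ≤ ‖1 - (x1 : ℂ) * w‖ + (x0 - x1) := by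
    unfold bs
    rw [e0]
    have a1 : (1:ℂ) - (x0:ℂ) * w = (1 - (x1:ℂ) * w) - ((x0 - x1 : ℝ) : ℂ) * w := by
      push_cast
      ring
    rw [a1]
    refine (norm_sub_le _ _).trans ?_
    rw [norm_mul, hwn, mul_one, Complex.norm_real, Real.norm_of_nonneg h4]
  rw [e1]
  have h8 := Real.add_one_le_exp (4 * δ)
  have h9 : 0 ≤ ‖1 - (x1 : ℂ) * w‖ := norm_nonneg _
  nlinarith

/-- zeta without the small primes -/
noncomputable def zz (z : ℕ) (δ h : ℝ) : ℂ := riemannZeta (1 + 2 * δ + h * I) *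
    ∏ p ∈ Sm z, (1 - (p:ℂ) ^ (-(1 + 2 * δ + h * I : ℂ)))

lemma fac_ne {p : ℕ} (hp : p.Prime) {δ : ℝ} (hδ : 0 ≤ δ) (h : ℝ) :
    0 < ‖1 - (p:ℂ) ^ (-(1 + 2 * δ + h * I : ℂ))‖ := by
  have h1 := ratio hp hδ h
  have h2 : 0 < ‖bs p h‖ := norm_pos_iff.2 (bs_ne hp h)
  by_contra hc
  have h3 : ‖1 - (p:ℂ) ^ (-(1 + 2 * δ + h * I : ℂ))‖ = 0 :=
    le_antisymm (not_lt.1 hc) (norm_nonneg _)
  rw [h3, mul_zero] at h1
  linarith

lemma zz_cont (z : ℕ) {δ : ℝ} (hδ : 0 < δ) : Continuous (zz z δ) := by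
  unfold zz
  refine Continuous.mul ?_ (continuous_finsetProd _ fun p hp => continuous_const.sub ?_)
  · rw [continuous_iff_continuousAt]
    intro h
    have h1 : (1 + 2 * δ + h * I : ℂ) ≠ 1 := by
      intro hc
      have := congrArg Complex.re hc
      simp at this
      linarith
    exact ContinuousAt.comp (f := fun h : ℝ => (1 + 2 * δ + h * I : ℂ))
      (differentiableAt_riemannZeta h1).continuousAt (by fun_prop)
  · have hp0 : (p:ℂ) ≠ 0 := by exact_mod_cast (Sm_pr hp).ne_zero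
    have h2 : Continuous fun h : ℝ => (-(1 + 2 * δ + h * I : ℂ)) := by fun_prop
    exact h2.const_cpow (Or.inl hp0)

lemma z1_cont {δ : ℝ} (hδ : 0 < δ) : Continuous (z1 δ) := by
  unfold z1
  refine Continuous.norm ?_
  rw [continuous_iff_continuousAt]
  intro h
  have h1 : (((1 + 2 * δ : ℝ) : ℂ) + (h : ℂ) * I) ≠ 1 := by
    intro hc
    have := congrArg Complex.re hc
    simp at this
    linarith
  exact ContinuousAt.comp (f := fun h : ℝ => (((1 + 2 * δ : ℝ) : ℂ) + (h : ℂ) * I))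
    (differentiableAt_riemannZeta h1).continuousAt (by fun_prop)

lemma z1_eq (z : ℕ) {δ : ℝ} (h : ℝ) :
    z1 δ h * ∏ p ∈ Sm z, ‖1 - (p:ℂ) ^ (-(1 + 2 * δ + h * I : ℂ))‖ = ‖zz z δ h‖ := by
  unfold z1 zz
  rw [norm_mul, norm_prod]
  push_cast
  rfl

/-- the main inequality -/
lemma ka_le {V C1 C2 : ℝ} (hC1 : 0 ≤ C1) (hC2 : 0 ≤ C2)
    (h1 : ∀ p : ℕ, p.Prime → |cf V p - 1| ≤ C1 / (p:ℝ) ^ 2)
    (h2 : ∀ (h : ℝ) (p : ℕ), p.Prime →
      ‖gV ![(V:ℂ), (V:ℂ)] ![(V:ℂ), (V:ℂ)] ![0, h] 0 p - 1‖ ≤ C2 / (p:ℝ) ^ 2)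
    {z : ℕ} (hz : 2 ≤ z) (hz2 : 2 * C1 ≤ z) {δ : ℝ} (hδ : 0 ≤ δ) (h : ℝ) :
    ka V δ h ≤ Real.exp ((2 * C2 + 8 * C1) / z) * Real.exp (4 * δ * (2 * V ^ 2) * z) *
      (Fz V z (pt (Sm z) h) * ‖zz z δ h‖ ^ (2 * V ^ 2)) := by
  set q : ℝ := 2 * V ^ 2 with hq
  have hq0 : 0 ≤ q := by positivity
  have hA := upper hC2 (h2 h) hz
  have hB := lower hC1 h1 hz hz2
  set A := ∏ p ∈ Sm z, ‖gV ![(V:ℂ), (V:ℂ)] ![(V:ℂ), (V:ℂ)] ![0, h] 0 p‖ with hAd
  set B := ∏ p ∈ Sm z, cf V p with hBd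
  set D := ∏ p ∈ Sm z, ‖1 - (p:ℂ) ^ (-(1 + 2 * δ + h * I : ℂ))‖ with hDd
  have hA0 : 0 ≤ A := prod_nonneg fun _ _ => norm_nonneg _
  have hB0 : 0 < B := prod_pos fun p hp => cf_pos V (Sm_pr hp)
  have hD0 : 0 < D := prod_pos fun p hp => fac_ne (Sm_pr hp) hδ h
  have hz1 : z1 δ h * D = ‖zz z δ h‖ := z1_eq z h
  have hz10 : 0 ≤ z1 δ h := norm_nonneg _
  have hz1q : z1 δ h ^ q * D ^ q = ‖zz z δ h‖ ^ q := by
    rw [← Real.mul_rpow hz10 hD0.le, hz1]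
  have hDq : 0 < D ^ q := Real.rpow_pos_of_pos hD0 q
  -- the product over the small primes
  have hprod : A / B ^ 2 ≤ Real.exp (4 * δ * q * z) * (D ^ q * Fz V z (pt (Sm z) h)) := by
    have e1 : A / B ^ 2 = ∏ p ∈ Sm z, (‖gV ![(V:ℂ), (V:ℂ)] ![(V:ℂ), (V:ℂ)] ![0, h] 0 p‖ / cf V p ^ 2) := by
      rw [Finset.prod_div_distrib, hAd, hBd, Finset.prod_pow]
    have e2 : ∀ p ∈ Sm z, ‖gV ![(V:ℂ), (V:ℂ)] ![(V:ℂ), (V:ℂ)] ![0, h] 0 p‖ / cf V p ^ 2 ≤
        Real.exp (4 * δ * q) * (‖1 - (p:ℂ) ^ (-(1 + 2 * δ + h * I : ℂ))‖ ^ q * (Ep V p (ph p h) / Ec V p ^ 2)) := by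
      intro p hp
      have hpp := Sm_pr hp
      have h12 : 0 < 1 - 1 / (p:ℝ) := by
        have := (px1 hpp.two_le).2
        linarith
      have hEc := Ec_ge V hpp.two_le
      have hEp := Ep_nn V p (ph p h)
      rw [gV_two V h hpp, Complex.norm_real, Real.norm_of_nonneg (by positivity)]
      have e3 : cf V p ^ 2 = (1 - 1 / (p:ℝ)) ^ q * Ec V p ^ 2 := by
        unfold cf
        rw [mul_pow, hq]
        congr 1
        rw [mul_comm 2 (V ^ 2), Real.rpow_mul h12.le]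
        norm_num
      rw [e3, ← hq]
      have hw : 0 < (1 - 1 / (p:ℝ)) ^ q := Real.rpow_pos_of_pos h12 q
      have e4 : (1 - 1 / (p:ℝ)) ^ q * ‖bs p h‖ ^ q * Ep V p (ph p h) / ((1 - 1 / (p:ℝ)) ^ q * Ec V p ^ 2) =
          ‖bs p h‖ ^ q * (Ep V p (ph p h) / Ec V p ^ 2) := by
        field_simp
      rw [e4, ← mul_assoc]
      refine mul_le_mul_of_nonneg_right ?_ (fac_nn V p _)
      have h3 := Real.rpow_le_rpow (norm_nonneg _) (ratio hpp hδ h) hq0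
      refine h3.trans (le_of_eq ?_)
      rw [Real.mul_rpow (Real.exp_pos _).le (norm_nonneg _), ← Real.exp_mul]
    rw [e1]
    refine (prod_le_prod (fun p hp => div_nonneg (norm_nonneg _) (by positivity)) e2).trans ?_
    rw [Finset.prod_mul_distrib, Finset.prod_mul_distrib, Finset.prod_const, ← Fz_pt,
      Real.finsetProd_rpow _ _ (fun _ _ => norm_nonneg _), ← Real.exp_nat_mul]
    refine mul_le_mul_of_nonneg_right ?_ (mul_nonneg hDq.le (Fz_nn V z _))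
    apply Real.exp_le_exp.2
    have h4 : ((Sm z).card : ℝ) ≤ z := by
      have : (Sm z).card ≤ z := by
        unfold Sm
        exact (Finset.card_filter_le _ _).trans (by rw [Finset.card_range])
      exact_mod_cast this
    have h5 : 0 ≤ 4 * δ * q := by positivity
    nlinarith
  -- assembly
  have hBe : 0 < B * Real.exp (-(4 * C1 / z)) := mul_pos hB0 (Real.exp_pos _)
  have hka : ka V δ h ≤ A * Real.exp (2 * C2 / z) / (B * Real.exp (-(4 * C1 / z))) ^ 2 * z1 δ h ^ q := by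
    unfold ka
    refine mul_le_mul_of_nonneg_right ?_ (Real.rpow_nonneg hz10 q)
    refine (div_le_div_of_nonneg_right hA (by positivity)).trans ?_
    exact div_le_div_of_nonneg_left (by positivity) (by positivity) (pow_le_pow_left₀ hBe.le hB 2)
  refine hka.trans ?_
  have e5 : A * Real.exp (2 * C2 / z) / (B * Real.exp (-(4 * C1 / z))) ^ 2 * z1 δ h ^ q =
      Real.exp ((2 * C2 + 8 * C1) / z) * (A / B ^ 2 * z1 δ h ^ q) := by
    have a1 : Real.exp ((2 * C2 + 8 * C1) / z) * (Real.exp (-(4 * C1 / z))) ^ 2 = Real.exp (2 * C2 / z) := by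
      rw [← Real.exp_nat_mul, ← Real.exp_add]
      congr 1
      push_cast
      ring
    rw [← a1, mul_pow]
    have a2 := (Real.exp_pos (-(4 * C1 / z))).ne'
    field_simp
  rw [e5, mul_assoc]
  refine mul_le_mul_of_nonneg_left ?_ (Real.exp_pos _).le
  calc A / B ^ 2 * z1 δ h ^ q
      ≤ Real.exp (4 * δ * q * z) * (D ^ q * Fz V z (pt (Sm z) h)) * z1 δ h ^ q :=
        mul_le_mul_of_nonneg_right hprod (Real.rpow_nonneg hz10 q)
    _ = Real.exp (4 * δ * q * z) * (Fz V z (pt (Sm z) h) * (z1 δ h ^ q * D ^ q)) := by ring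
    _ = _ := by rw [hz1q]

/-! ### limits -/

lemma lim_S (hM : Pool.Agent.N748.GC.S_MER) {K C : ℝ} (hK : 0 ≤ K) (hC : 0 ≤ C) :
    Tendsto (fun z : ℕ => Real.exp (K * ∑ p ∈ Sm z, 1 / (p:ℝ)) * (C * (z:ℝ) ^ (-(1 / 2 : ℝ)))) atTop (𝓝 0) := by
  obtain ⟨M, hM0, hM⟩ := hM
  have hl2 : 0 < Real.log 2 := Real.log_pos (by norm_num)
  set E : ℝ := (Real.log 2) ^ (-K) * Real.exp (K * (M / Real.log 2)) * C with hE
  have h1 : Tendsto (fun z : ℕ => E * (Real.log z ^ K / (z:ℝ) ^ (1 / 2 : ℝ))) atTop (𝓝 0) := by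
    have h2 := (isLittleO_log_rpow_rpow_atTop K (show (0:ℝ) < 1 / 2 by norm_num)).tendsto_div_nhds_zero
    have h3 := (h2.comp tendsto_natCast_atTop_atTop).const_mul E
    rw [mul_zero] at h3
    exact h3
  refine squeeze_zero' (Eventually.of_forall fun z => by positivity) ?_ h1
  filter_upwards [eventually_ge_atTop 2] with z hz
  have hzr : (2:ℝ) ≤ z := by exact_mod_cast hz
  have hlz : 0 < Real.log z := Real.log_pos (by linarith)
  have h2 := (abs_le.1 (hM 2 z le_rfl (by exact_mod_cast hz))).2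
  rw [Nat.floor_natCast] at h2
  have h3 : ∑ p ∈ Sm z, 1 / (p:ℝ) ≤ ∑ p ∈ (Icc 2 z).filter Nat.Prime, 1 / (p:ℝ) := by
    refine sum_le_sum_of_subset_of_nonneg ?_ fun p _ _ => by positivity
    intro p hp
    unfold Sm at hp
    rw [mem_filter, mem_range] at hp
    rw [mem_filter, mem_Icc]
    exact ⟨⟨hp.2.two_le, hp.1.le⟩, hp.2⟩
  have h4 : ∑ p ∈ Sm z, 1 / (p:ℝ) ≤ Real.log (Real.log z / Real.log 2) + M / Real.log 2 := by
    push_cast at h2
    linarith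
  have h5 : Real.exp (K * ∑ p ∈ Sm z, 1 / (p:ℝ)) ≤
      Real.log z ^ K * ((Real.log 2) ^ (-K) * Real.exp (K * (M / Real.log 2))) := by
    calc Real.exp (K * ∑ p ∈ Sm z, 1 / (p:ℝ))
        ≤ Real.exp (K * (Real.log (Real.log z / Real.log 2) + M / Real.log 2)) :=
          Real.exp_le_exp.2 (mul_le_mul_of_nonneg_left h4 hK)
      _ = _ := by
          rw [mul_add, Real.exp_add, ← mul_assoc]
          congr 1
          rw [mul_comm K, Real.exp_mul, Real.exp_log (by positivity), Real.div_rpow hlz.le hl2.le,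
            Real.rpow_neg hl2.le]
          rfl
  have h6 : (z:ℝ) ^ (-(1 / 2 : ℝ)) = 1 / (z:ℝ) ^ (1 / 2 : ℝ) := by
    rw [Real.rpow_neg (by linarith)]
    exact (one_div _).symm
  rw [h6]
  have h7 : 0 ≤ C * (1 / (z:ℝ) ^ (1 / 2 : ℝ)) := by positivity
  refine (mul_le_mul_of_nonneg_right h5 h7).trans (le_of_eq ?_)
  rw [hE]
  ring

lemma a2_cont (hc : S_CONV) (V : ℝ) : Continuous fun h : ℝ => a2 V V h := by
  have hcv : Continuous fun q : (Fin 2 → ℂ) × (Fin 2 → ℂ) × (Fin 2 → ℝ) => aV q.1 q.2.1 q.2.2 := hc 2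
  have c2 : Continuous fun h : ℝ => ((![(V:ℂ), (V:ℂ)] : Fin 2 → ℂ), ((![(V:ℂ), (V:ℂ)] : Fin 2 → ℂ),
      (![0, h] : Fin 2 → ℝ))) := by
    refine continuous_const.prodMk (continuous_const.prodMk (continuous_pi fun i => ?_))
    fin_cases i
    · exact continuous_const
    · exact continuous_id
  have c3 := Continuous.comp hcv c2
  unfold a2
  exact c3

theorem t_KAV' (hM : Pool.Agent.N748.GC.S_MER) (hZ : Pool.Agent.N748.HM.S_ZML3) (hE : Pool.Agent.N748.GC.S_ERG)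
    (hG : S_GVB) (hB : S_BND) : S_KAV := by
  intro V θ ε hV hθ hε
  obtain ⟨n, hn⟩ := exists_nat_ge |V|
  set q : ℝ := 2 * V ^ 2 with hq
  have hq0 : 0 ≤ q := by positivity
  obtain ⟨C2, hC2, hG2⟩ := hG 2 |V| (abs_nonneg _)
  obtain ⟨C1, hC1, hG1⟩ := Gp_bd n
  obtain ⟨C, hC, hZ⟩ := hZ q hq0
  set K : ℝ := ∑' k, bb (2 * n + 1) 2 k with hK
  have hK0 : 0 ≤ K := tsum_nonneg fun k => by unfold bb; positivity
  set e : ℝ := min (ε / 5) (1 / 10) with he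
  have he0 : 0 < e := by rw [he]; positivity
  have he1 : e ≤ ε / 5 := min_le_left _ _
  have he2 : e ≤ 1 / 10 := min_le_right _ _
  have hcf : ∀ p : ℕ, p.Prime → |cf V p - 1| ≤ C1 / (p:ℝ) ^ 2 := by
    intro p hp
    have h1 := hG1 (V:ℂ) (1 / (p:ℂ)) (by rw [Complex.norm_real]; exact hn) (by
      rw [norm_div, norm_one, Complex.norm_natCast]
      exact (px1 hp.two_le).2)
    rw [Gp_cf V hp, ← Complex.ofReal_one, ← Complex.ofReal_sub, Complex.norm_real] at h1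
    refine h1.trans (le_of_eq ?_)
    rw [Complex.ofReal_one, norm_div, norm_one, Complex.norm_natCast]
    ring
  have hgv : ∀ (h : ℝ) (p : ℕ), p.Prime →
      ‖gV ![(V:ℂ), (V:ℂ)] ![(V:ℂ), (V:ℂ)] ![0, h] 0 p - 1‖ ≤ C2 / (p:ℝ) ^ 2 := by
    intro h p hp
    have hv : ∀ j : Fin 2, ‖(![(V:ℂ), (V:ℂ)] : Fin 2 → ℂ) j‖ ≤ |V| := by
      intro j
      fin_cases j <;> simp
    exact (hG2 _ _ ![0, h] hv hv p hp 0 le_rfl zero_le_one).1
  -- the choice of `z`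
  have hlim1 : Tendsto (fun z : ℕ => Real.exp ((2 * C2 + 8 * C1) / z)) atTop (𝓝 1) := by
    have h1 := (tendsto_const_div_atTop_nhds_zero_nat (2 * C2 + 8 * C1))
    have h2 := (Real.continuous_exp.tendsto 0).comp h1
    rwa [Real.exp_zero] at h2
  have hev := (((eventually_ge_atTop 2).and (eventually_ge_atTop ⌈2 * C1⌉₊)).and
    (hlim1.eventually_le_const (show (1:ℝ) < 1 + e by linarith))).and
    ((lim_S hM hK0 hC.le).eventually_le_const he0)
  obtain ⟨z, ⟨⟨hz2, hzC⟩, hz3⟩, hz4⟩ := hev.exists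
  have hzC1 : 2 * C1 ≤ z := (Nat.le_ceil _).trans (by exact_mod_cast hzC)
  obtain ⟨H0, hH0, hZH⟩ := hZ z hz2
  obtain ⟨H1, hH1, hEH⟩ := hE (Sm z) (fun p hp => Sm_pr hp) (Fz V z) (Fz_cont V z) e he0
  -- the choice of `δ`
  have hlim2 : Tendsto (fun δ : ℝ => Real.exp (4 * δ * q * z)) (𝓝[>] 0) (𝓝 1) := by
    have h1 : Continuous fun δ : ℝ => Real.exp (4 * δ * q * z) := by fun_prop
    have h2 := h1.tendsto 0
    simp only [mul_zero, zero_mul, Real.exp_zero] at h2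
    exact h2.mono_left nhdsWithin_le_nhds
  have hlim3 : Tendsto (fun δ : ℝ => δ ^ (-θ)) (𝓝[>] 0) atTop := tendsto_rpow_neg_nhdsGT_zero (by linarith)
  have hev2 := ((hlim2.eventually_le_const (show (1:ℝ) < 1 + e by linarith)).and
    (hlim3.eventually_ge_atTop (max H0 H1)))
  obtain ⟨d, hd, hdd⟩ := mem_nhdsGT_iff_exists_Ioc_subset.1 hev2
  refine ⟨min d (1 / 16), lt_min hd (by norm_num), fun δ hδ hδd H hH => ?_⟩
  obtain ⟨g1, g2⟩ := hdd ⟨hδ, hδd.trans (min_le_left _ _)⟩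
  have hδ16 : δ ≤ 1 / 16 := hδd.trans (min_le_right _ _)
  have hHH0 : H0 ≤ H := (le_max_left _ _).trans (g2.trans hH)
  have hHH1 : H1 ≤ H := (le_max_right _ _).trans (g2.trans hH)
  have hH1' : 1 ≤ H := hH0.trans hHH0
  have hHp : 0 < H := by linarith
  -- the pointwise bound
  set S : ℝ := Real.exp (K * ∑ p ∈ Sm z, 1 / (p:ℝ)) with hS
  have hS0 : 0 < S := Real.exp_pos _
  have hpt : ∀ h : ℝ, ka V δ h ≤ (1 + e) ^ 2 * (Fz V z (pt (Sm z) h) + S * max (‖zz z δ h‖ ^ q - 1) 0) := by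
    intro h
    have h1 := ka_le hC1 hC2.le hcf hgv hz2 hzC1 hδ.le h
    have hF0 := Fz_nn V z (pt (Sm z) h)
    have hFS : Fz V z (pt (Sm z) h) ≤ S := Fz_le hn z _
    have hm0 : 0 ≤ max (‖zz z δ h‖ ^ q - 1) 0 := le_max_right _ _
    have hm1 : ‖zz z δ h‖ ^ q - 1 ≤ max (‖zz z δ h‖ ^ q - 1) 0 := le_max_left _ _
    have h2 : Fz V z (pt (Sm z) h) * ‖zz z δ h‖ ^ q ≤
        Fz V z (pt (Sm z) h) + S * max (‖zz z δ h‖ ^ q - 1) 0 := by
      have a1 := mul_le_mul_of_nonneg_left hm1 hF0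
      have a2 := mul_le_mul_of_nonneg_right hFS hm0
      linarith
    have h3 : Real.exp ((2 * C2 + 8 * C1) / z) * Real.exp (4 * δ * q * z) ≤ (1 + e) ^ 2 := by
      rw [sq]
      exact mul_le_mul hz3 g1 (Real.exp_pos _).le (by linarith)
    have h4 : 0 ≤ Fz V z (pt (Sm z) h) * ‖zz z δ h‖ ^ q :=
      mul_nonneg hF0 (Real.rpow_nonneg (norm_nonneg _) _)
    exact h1.trans (mul_le_mul h3 h2 h4 (by positivity))
  -- continuity
  have hc0 : Continuous (ka V δ) := by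
    unfold ka
    have c1 : Continuous fun h : ℝ => a2 V V h := a2_cont (conv hB hG) V
    exact ((Complex.continuous_re.comp c1).div_const _).mul ((z1_cont hδ).rpow_const fun _ => Or.inr hq0)
  have hc1 : Continuous fun h : ℝ => Fz V z (pt (Sm z) h) :=
    (Fz_cont V z).comp (Pool.Agent.N748.GC.EQ.pt_cont _)
  have hc2 : Continuous fun h : ℝ => max (‖zz z δ h‖ ^ q - 1) 0 :=
    (((zz_cont z hδ).norm.rpow_const fun _ => Or.inr hq0).sub continuous_const).max continuous_const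
  have hint := intervalIntegral.integral_mono_on (μ := volume) (a := 1) (b := H) hH1'
    (hc0.intervalIntegrable _ _)
    (((hc1.add (hc2.const_mul S)).const_mul ((1 + e) ^ 2)).intervalIntegrable _ _) (fun t _ => hpt t)
  refine hint.trans ?_
  simp only [Pi.add_apply]
  rw [intervalIntegral.integral_const_mul, intervalIntegral.integral_add (hc1.intervalIntegrable _ _)
    ((hc2.const_mul S).intervalIntegrable _ _), intervalIntegral.integral_const_mul]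
  have i1 : ∫ h in (1:ℝ)..H, Fz V z (pt (Sm z) h) ≤ (1 + e) * H := by
    have a1 := (abs_le.1 (hEH H hHH1 0)).2
    rw [Fz_int, zero_add] at a1
    have a2 : ∫ h in (0:ℝ)..H, Fz V z (pt (Sm z) h) ≤ (1 + e) * H := by
      rw [← div_le_iff₀ hHp]
      linarith
    have a3 := intervalIntegral.integral_add_adjacent_intervals (μ := volume)
      (hc1.intervalIntegrable 0 1) (hc1.intervalIntegrable 1 H)
    have a4 : 0 ≤ ∫ h in (0:ℝ)..1, Fz V z (pt (Sm z) h) :=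
      intervalIntegral.integral_nonneg zero_le_one fun u _ => Fz_nn V z _
    linarith
  have i2 : S * ∫ h in (1:ℝ)..H, max (‖zz z δ h‖ ^ q - 1) 0 ≤ e * H := by
    have a1 : ∫ h in (1:ℝ)..H, max (‖zz z δ h‖ ^ q - 1) 0 ≤ C * (z:ℝ) ^ (-(1 / 2 : ℝ)) * H :=
      hZH H hHH0 δ hδ hδ16 q hq0 le_rfl
    calc S * ∫ h in (1:ℝ)..H, max (‖zz z δ h‖ ^ q - 1) 0 ≤ S * (C * (z:ℝ) ^ (-(1 / 2 : ℝ)) * H) :=
          mul_le_mul_of_nonneg_left a1 hS0.le
      _ = (S * (C * (z:ℝ) ^ (-(1 / 2 : ℝ)))) * H := by ring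
      _ ≤ e * H := mul_le_mul_of_nonneg_right hz4 hHp.le
  calc (1 + e) ^ 2 * ((∫ h in (1:ℝ)..H, Fz V z (pt (Sm z) h)) +
        S * ∫ h in (1:ℝ)..H, max (‖zz z δ h‖ ^ q - 1) 0)
      ≤ (1 + e) ^ 2 * ((1 + e) * H + e * H) := mul_le_mul_of_nonneg_left (add_le_add i1 i2) (by positivity)
    _ = ((1 + e) ^ 2 * (1 + 2 * e)) * H := by ring
    _ ≤ (1 + ε) * H := by
        refine mul_le_mul_of_nonneg_right ?_ hHp.le
        nlinarith [mul_pos he0 he0]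

theorem t_KAV (hZ : Pool.Agent.N748.HM.S_ZML3) (hE : Pool.Agent.N748.GC.S_ERG) (hG : S_GVB) (hB : S_BND) : S_KAV :=
  t_KAV' Pool.Agent.N748.GC.COS.mer hZ hE hG hB

end Pool.Agent.V5helper76.PL.KAV
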